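import Pool.Agent.Q222.Dep.Graph

/-!
# Connected locally dependent random graphs below the connectivity threshold
-/

namespace Pool.Agent.Results.MP_b3d828_pr.Connected

open MeasureTheory ProbabilityTheory Filter Asymptotics Topology
open Pool.Agent.Q222.Dep

/-- The parameter `k ~ (log₂ n)^{1/4}`. -/
def kk (n : ℕ) : ℕ := Nat.sqrt (Nat.sqrt (Nat.log 2 n))

theorem kk_le (n : ℕ) : kk n ^ 4 ≤ Nat.log 2 n := by
  have h1 := Nat.sqrt_le (Nat.sqrt (Nat.log 2 n))
  have h2 := Nat.sqrt_le (Nat.log 2 n)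
  have h3 : kk n * kk n ≤ Nat.sqrt (Nat.log 2 n) := h1
  calc kk n ^ 4 = (kk n * kk n) * (kk n * kk n) := by ring
    _ ≤ Nat.sqrt (Nat.log 2 n) * Nat.sqrt (Nat.log 2 n) := Nat.mul_le_mul h3 h3
    _ ≤ Nat.log 2 n := h2

theorem lt_kk (n : ℕ) : Nat.log 2 n < (kk n + 1) ^ 4 := by
  have h1 := Nat.lt_succ_sqrt (Nat.sqrt (Nat.log 2 n))
  have h2 := Nat.lt_succ_sqrt (Nat.log 2 n)
  have h3 : Nat.sqrt (Nat.log 2 n) + 1 ≤ (kk n + 1) * (kk n + 1) := h1
  calc Nat.log 2 n < (Nat.sqrt (Nat.log 2 n) + 1) * (Nat.sqrt (Nat.log 2 n) + 1) := h2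
    _ ≤ ((kk n + 1) * (kk n + 1)) * ((kk n + 1) * (kk n + 1)) := Nat.mul_le_mul h3 h3
    _ = (kk n + 1) ^ 4 := by ring

theorem kk_tendsto : Tendsto kk atTop atTop := by
  rw [tendsto_atTop]
  intro b
  filter_upwards [eventually_ge_atTop (2 ^ (b + 1) ^ 4)] with n hn
  by_contra hcon
  push Not at hcon
  have h1 := lt_kk n
  have h2 : (b + 1) ^ 4 ≤ Nat.log 2 n := Nat.le_log_of_pow_le (by norm_num) hn
  have h3 : (kk n + 1) ^ 4 ≤ (b + 1) ^ 4 := Nat.pow_le_pow_left (by omega) 4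
  omega

theorem log_le (n : ℕ) (hn : 1 ≤ kk n) : Real.log n ≤ 16 * (kk n : ℝ) ^ 4 := by
  have hL : 1 ≤ Nat.log 2 n := le_trans (Nat.one_le_pow _ _ hn) (kk_le n)
  have hn0 : 0 < n := by
    rcases Nat.eq_zero_or_pos n with h | h
    · subst h; simp at hL
    · exact h
  have h1 : n < 2 ^ (Nat.log 2 n + 1) := Nat.lt_pow_succ_log_self (by norm_num) n
  have h2 : Nat.log 2 n + 1 ≤ 16 * kk n ^ 4 := by
    have h3 := lt_kk n
    have h4 : (kk n + 1) ^ 4 ≤ (2 * kk n) ^ 4 := Nat.pow_le_pow_left (by omega) 4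
    have h5 : (2 * kk n) ^ 4 = 16 * kk n ^ 4 := by ring
    omega
  calc Real.log n ≤ Real.log ((2 : ℝ) ^ (Nat.log 2 n + 1)) := by
        apply Real.log_le_log (by exact_mod_cast hn0)
        exact_mod_cast h1.le
    _ = (Nat.log 2 n + 1 : ℕ) * Real.log 2 := by rw [Real.log_pow]
    _ ≤ (Nat.log 2 n + 1 : ℕ) * 1 := by
        apply mul_le_mul_of_nonneg_left _ (Nat.cast_nonneg _)
        have := Real.log_two_lt_d9
        linarith
    _ ≤ 16 * (kk n : ℝ) ^ 4 := by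
        rw [mul_one]
        exact_mod_cast h2

theorem le_log (n : ℕ) (hn : 1 ≤ kk n) : (1 / 2 : ℝ) * (kk n : ℝ) ^ 4 ≤ Real.log n := by
  have hL : 1 ≤ Nat.log 2 n := le_trans (Nat.one_le_pow _ _ hn) (kk_le n)
  have hn0 : n ≠ 0 := by
    rintro rfl; simp at hL
  have h1 : 2 ^ Nat.log 2 n ≤ n := Nat.pow_log_le_self 2 hn0
  have h2 := kk_le n
  have h3 : (0.6931471803 : ℝ) < Real.log 2 := Real.log_two_gt_d9
  calc (1 / 2 : ℝ) * (kk n : ℝ) ^ 4 ≤ (1 / 2 : ℝ) * (Nat.log 2 n : ℝ) := by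
        apply mul_le_mul_of_nonneg_left _ (by norm_num)
        exact_mod_cast h2
    _ ≤ (Nat.log 2 n : ℝ) * Real.log 2 := by
        rw [mul_comm]
        apply mul_le_mul_of_nonneg_left _ (Nat.cast_nonneg _)
        linarith
    _ = Real.log ((2 : ℝ) ^ Nat.log 2 n) := by rw [Real.log_pow]
    _ ≤ Real.log n := by
        apply Real.log_le_log (by positivity)
        exact_mod_cast h1

theorem six_le (n : ℕ) (hk : 2 ≤ kk n) : 6 * kk n ^ 4 ≤ n := by
  have h1 := kk_le n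
  have h16 : 2 ^ 4 ≤ kk n ^ 4 := Nat.pow_le_pow_left hk 4
  have hL : 16 ≤ Nat.log 2 n := by omega
  have hn0 : n ≠ 0 := by
    rintro rfl; simp at hL
  have h2 : 2 ^ Nat.log 2 n ≤ n := Nat.pow_log_le_self 2 hn0
  have h3 : ∀ x : ℕ, 5 ≤ x → 6 * x ≤ 2 ^ x := by
    intro x hx
    induction x, hx using Nat.le_induction with
    | base => norm_num
    | succ x hx ih => rw [pow_succ]; omega
  have h4 := h3 (Nat.log 2 n) (by omega)
  omega

/-- The edge probability. -/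
noncomputable def pp (n : ℕ) : ℝ := (kk n : ℝ) ^ 3 / n

theorem pp_nonneg (n : ℕ) : 0 ≤ pp n := by unfold pp; positivity

theorem pp_le_one (n : ℕ) : pp n ≤ 1 := by
  unfold pp
  apply div_le_one_of_le₀ _ (Nat.cast_nonneg _)
  have h1 := kk_le n
  have h2 : Nat.log 2 n ≤ n := Nat.log_le_self 2 n
  have h3 : kk n ^ 3 ≤ kk n ^ 4 := by
    rcases Nat.eq_zero_or_pos (kk n) with h | h
    · rw [h]; norm_num
    · exact Nat.pow_le_pow_right h (by norm_num)
  exact_mod_cast h3.trans (h1.trans h2)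

theorem bound (n : ℕ) (hk : 2 ≤ kk n) :
    ((3 * (kk n ^ 4 : ℕ) : ℝ)) ^ 2 *
      (1 - (1 - (1 - pp n) ^ (n / (3 * kk n ^ 4))) ^ 2) ^ (kk n ^ 4)
      ≤ 9 * (kk n : ℝ) ^ 8 * Real.exp (-((kk n : ℝ) ^ 2 / 49)) := by
  have h6 := six_le n hk
  have hp0 := pp_nonneg n
  have hp1 := pp_le_one n
  set k := kk n with hkdef
  have hk0 : (0 : ℝ) < k := by
    have : 0 < k := by omega
    exact_mod_cast this
  have hk2 : (2 : ℝ) ≤ k := by exact_mod_cast hk
  have hn0 : 0 < n := by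
    have : 0 < k ^ 4 := by positivity
    omega
  have hn0' : (0 : ℝ) < n := by exact_mod_cast hn0
  set s := n / (3 * k ^ 4) with hs
  -- lower bound for s
  have hs1 : (n : ℝ) / (6 * (k : ℝ) ^ 4) ≤ s := by
    have h3k : 0 < 3 * k ^ 4 := by positivity
    have ha : n < (s + 1) * (3 * k ^ 4) := by
      rw [hs]
      have := Nat.lt_succ_iff.2 (le_refl (n / (3 * k ^ 4)))
      exact (Nat.div_lt_iff_lt_mul h3k).1 this
    have hs1' : 1 ≤ s := by
      rw [hs, Nat.le_div_iff_mul_le h3k]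
      omega
    rw [div_le_iff₀ (by positivity)]
    have hb : n ≤ (2 * s) * (3 * k ^ 4) := by
      calc n ≤ (s + 1) * (3 * k ^ 4) := ha.le
        _ ≤ (2 * s) * (3 * k ^ 4) := Nat.mul_le_mul_right _ (by omega)
    have hc : (n : ℝ) ≤ (2 * s) * (3 * (k : ℝ) ^ 4) := by exact_mod_cast hb
    linarith
  have hps : 1 / (6 * (k : ℝ)) ≤ pp n * s := by
    calc 1 / (6 * (k : ℝ)) = pp n * ((n : ℝ) / (6 * (k : ℝ) ^ 4)) := by
          unfold pp
          rw [← hkdef]
          field_simp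
      _ ≤ pp n * s := mul_le_mul_of_nonneg_left hs1 hp0
  have hpow : (1 - pp n) ^ s ≤ 1 - 1 / (7 * (k : ℝ)) := by
    have h1 : 1 - pp n ≤ Real.exp (-pp n) := by
      have := Real.add_one_le_exp (-pp n)
      linarith
    have h2 : (1 - pp n) ^ s ≤ Real.exp (-(pp n * s)) := by
      calc (1 - pp n) ^ s ≤ (Real.exp (-pp n)) ^ s := pow_le_pow_left₀ (by linarith) h1 s
        _ = Real.exp (-(pp n * s)) := by
          rw [← Real.exp_nat_mul]; congr 1; ring
    have h3 : Real.exp (-(pp n * s)) ≤ Real.exp (-(1 / (6 * (k : ℝ)))) :=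
      Real.exp_le_exp.2 (by linarith)
    have h4 : Real.exp (-(1 / (6 * (k : ℝ)))) ≤ 1 / (1 + 1 / (6 * (k : ℝ))) := by
      rw [Real.exp_neg, ← one_div]
      apply one_div_le_one_div_of_le (by positivity)
      have := Real.add_one_le_exp (1 / (6 * (k : ℝ)))
      linarith
    have h5 : 1 / (1 + 1 / (6 * (k : ℝ))) ≤ 1 - 1 / (7 * (k : ℝ)) := by
      have e1 : 1 / (1 + 1 / (6 * (k : ℝ))) = 1 - 1 / (6 * k + 1) := by
        field_simp
        ring
      rw [e1]
      have : 1 / (7 * (k : ℝ)) ≤ 1 / (6 * k + 1) := by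
        apply one_div_le_one_div_of_le (by positivity)
        linarith
      linarith
    linarith
  have hq : 1 / (7 * (k : ℝ)) ≤ 1 - (1 - pp n) ^ s := by linarith
  have hq2 : 1 / (49 * (k : ℝ) ^ 2) ≤ (1 - (1 - pp n) ^ s) ^ 2 := by
    have h0 : 0 ≤ 1 / (7 * (k : ℝ)) := by positivity
    calc 1 / (49 * (k : ℝ) ^ 2) = (1 / (7 * (k : ℝ))) ^ 2 := by field_simp; norm_num
      _ ≤ _ := pow_le_pow_left₀ h0 hq 2
  have hbase0 : 0 ≤ 1 - (1 - (1 - pp n) ^ s) ^ 2 := by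
    have e4 : 0 ≤ (1 - pp n) ^ s := pow_nonneg (by linarith) _
    have e3 : (1 - pp n) ^ s ≤ 1 := pow_le_one₀ (by linarith) (by linarith)
    nlinarith
  have hbase : 1 - (1 - (1 - pp n) ^ s) ^ 2 ≤ Real.exp (-(1 / (49 * (k : ℝ) ^ 2))) := by
    have := Real.add_one_le_exp (-(1 / (49 * (k : ℝ) ^ 2)))
    linarith
  have hfin : (1 - (1 - (1 - pp n) ^ s) ^ 2) ^ (k ^ 4) ≤ Real.exp (-((k : ℝ) ^ 2 / 49)) := by
    calc (1 - (1 - (1 - pp n) ^ s) ^ 2) ^ (k ^ 4)
        ≤ (Real.exp (-(1 / (49 * (k : ℝ) ^ 2)))) ^ (k ^ 4) := pow_le_pow_left₀ hbase0 hbase _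
      _ = Real.exp (-((k : ℝ) ^ 2 / 49)) := by
          rw [← Real.exp_nat_mul]
          congr 1
          push_cast
          field_simp
  calc _ ≤ ((3 * (k ^ 4 : ℕ) : ℝ)) ^ 2 * Real.exp (-((k : ℝ) ^ 2 / 49)) :=
        mul_le_mul_of_nonneg_left hfin (by positivity)
    _ = 9 * (k : ℝ) ^ 8 * Real.exp (-((k : ℝ) ^ 2 / 49)) := by push_cast; ring

theorem bound_tendsto :
    Tendsto (fun n => 9 * (kk n : ℝ) ^ 8 * Real.exp (-((kk n : ℝ) ^ 2 / 49))) atTop (𝓝 0) := by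
  have h1 : Tendsto (fun y : ℝ => y ^ 4 * Real.exp (-y)) atTop (𝓝 0) :=
    Real.tendsto_pow_mul_exp_neg_atTop_nhds_zero 4
  have h2 : Tendsto (fun n => (kk n : ℝ) ^ 2 / 49) atTop atTop := by
    apply Tendsto.atTop_div_const (by norm_num)
    exact (tendsto_pow_atTop (by norm_num)).comp (tendsto_natCast_atTop_atTop.comp kk_tendsto)
  have h3 := (h1.comp h2).const_mul (9 * 49 ^ 4)
  rw [mul_zero] at h3
  refine h3.congr fun n => ?_
  simp only [Function.comp]
  ring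

/-- There are `d(n) = O(n / ln n)`, `p(n) = o(ln n / n)` and `d(n)`-dependent random graphs on
`n` vertices with edge probability `p(n)` that are connected with probability tending to `1`. -/
theorem result : ∃ (d : ℕ → ℕ) (p : ℕ → ℝ) (Ω : ℕ → Type) (mΩ : ∀ n, MeasurableSpace (Ω n))
    (μ : ∀ n, Measure (Ω n)) (G : ∀ n, Ω n → SimpleGraph (Fin n)),
    (∀ n, 0 ≤ p n ∧ p n ≤ 1) ∧
    (fun n => (d n : ℝ)) =O[atTop] (fun n => (n : ℝ) / Real.log n) ∧
    p =o[atTop] (fun n => Real.log n / (n : ℝ)) ∧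
    (∀ n, IsProbabilityMeasure (μ n)) ∧
    (∀ n, IsDependent (μ n) (G n) (d n) (p n)) ∧
    Tendsto (fun n => (μ n).real {ω | (G n ω).Connected}) atTop (𝓝 1) := by
  refine ⟨fun n => n / (3 * kk n ^ 4), pp, fun n => Fin n × Fin n → Bool, fun n => inferInstance,
    fun n => bp (Fin n × Fin n) (pp n), fun n => gr (3 * kk n ^ 4), ?_, ?_, ?_, ?_, ?_, ?_⟩
  · exact fun n => ⟨pp_nonneg n, pp_le_one n⟩
  · apply IsBigO.of_bound (16 / 3)
    filter_upwards [kk_tendsto.eventually_ge_atTop 1] with n hn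
    have h1 := log_le n hn
    have h2 := le_log n hn
    have hk : (0 : ℝ) < kk n := by exact_mod_cast hn
    have hlog : 0 < Real.log n := lt_of_lt_of_le (by positivity) h2
    rw [Real.norm_of_nonneg (by positivity), Real.norm_of_nonneg (by positivity)]
    calc ((n / (3 * kk n ^ 4) : ℕ) : ℝ) ≤ (n : ℝ) / ((3 * kk n ^ 4 : ℕ) : ℝ) := Nat.cast_div_le
      _ = (n : ℝ) / (3 * (kk n : ℝ) ^ 4) := by push_cast; ring
      _ ≤ 16 / 3 * ((n : ℝ) / Real.log n) := by
          rw [div_le_iff₀ (by positivity)]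
          have : 16 / 3 * ((n : ℝ) / Real.log n) * (3 * (kk n : ℝ) ^ 4)
              = n * ((16 * (kk n : ℝ) ^ 4) / Real.log n) := by ring
          rw [this]
          have h3 : 1 ≤ (16 * (kk n : ℝ) ^ 4) / Real.log n := by
            rw [le_div_iff₀ hlog]; linarith
          nlinarith [Nat.cast_nonneg (α := ℝ) n]
  · rw [isLittleO_iff]
    intro c hc
    obtain ⟨K, hK⟩ := exists_nat_gt (2 / c)
    filter_upwards [kk_tendsto.eventually_ge_atTop (max 1 K)] with n hn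
    have hn1 : 1 ≤ kk n := le_trans (le_max_left _ _) hn
    have hnK : K ≤ kk n := le_trans (le_max_right _ _) hn
    have h2 := le_log n hn1
    have hk : (0 : ℝ) < kk n := by exact_mod_cast hn1
    have hlog : 0 < Real.log n := lt_of_lt_of_le (by positivity) h2
    rw [Real.norm_of_nonneg (pp_nonneg n), Real.norm_of_nonneg (by positivity), pp,
      ← mul_div_assoc]
    apply div_le_div_of_nonneg_right _ (Nat.cast_nonneg n)
    have hKk : 2 / c < kk n := lt_of_lt_of_le hK (by exact_mod_cast hnK)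
    rw [div_lt_iff₀ hc] at hKk
    calc (kk n : ℝ) ^ 3 = 2 * ((1 / 2) * (kk n : ℝ) ^ 3) := by ring
      _ ≤ (kk n * c) * ((1 / 2) * (kk n : ℝ) ^ 3) :=
          mul_le_mul_of_nonneg_right hKk.le (by positivity)
      _ = c * ((1 / 2) * (kk n : ℝ) ^ 4) := by ring
      _ ≤ c * Real.log n := mul_le_mul_of_nonneg_left h2 hc.le
  · exact fun n => bp_prob (pp_nonneg n) (pp_le_one n)
  · exact fun n => gr_dependent _ (pp_nonneg n) (pp_le_one n)
  · have hprob : ∀ n, IsProbabilityMeasure (bp (Fin n × Fin n) (pp n)) :=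
      fun n => bp_prob (pp_nonneg n) (pp_le_one n)
    have hlow : Tendsto (fun n => 1 - 9 * (kk n : ℝ) ^ 8 * Real.exp (-((kk n : ℝ) ^ 2 / 49)))
        atTop (𝓝 1) := by
      simpa using bound_tendsto.const_sub 1
    refine tendsto_of_tendsto_of_tendsto_of_le_of_le' hlow tendsto_const_nhds ?_ ?_
    · filter_upwards [kk_tendsto.eventually_ge_atTop 2] with n hn
      have := hprob n
      have h6 := six_le n hn
      have h16 : 2 ^ 4 ≤ kk n ^ 4 := Nat.pow_le_pow_left hn 4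
      have h := (prob_disconnected (n := n) (m := kk n ^ 4) (by omega) (by omega)
        (pp_nonneg n) (pp_le_one n)).trans (bound n hn)
      have hc : {ω : Fin n × Fin n → Bool | (gr (3 * kk n ^ 4) ω).Connected}
          = {ω | ¬ (gr (n := n) (3 * kk n ^ 4) ω).Connected}ᶜ := by
        ext ω; simp
      rw [hc, probReal_compl_eq_one_sub (meas_any _)]
      linarith
    · filter_upwards with n
      have := hprob n
      exact measureReal_le_one

end Pool.Agent.Results.MP_b3d828_pr.Connected
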